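import Pool.Agent.X185.RH.Vis

set_option autoImplicit false

/-! MP_d1e581_al: a non-elementary convergence action of the free group `F_3` on a metrizable
compactum with a Cannon-Thurston map whose lamination has an endpoint set of positive Hausdorff
dimension. -/

namespace Pool.Agent.Results.MP_d1e581_al.PositiveDimension

open Pool.Agent.H322R3.Hyp Pool.Agent.X185.CT Filter Topology

theorem result : ∃ (Z : Type) (_ : MetricSpace Z) (_ : CompactSpace Z)
    (_ : MulAction (FreeGroup (Fin 3)) Z) (_ : ContinuousConstSMul (FreeGroup (Fin 3)) Z),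
    -- the induced action on distinct triples is properly discontinuous
    (∀ K : Set (Z × Z × Z), IsCompact K → (∀ t ∈ K, t.1 ≠ t.2.1 ∧ t.2.1 ≠ t.2.2 ∧ t.1 ≠ t.2.2) →
      {g : FreeGroup (Fin 3) | ∃ t ∈ K, g • t ∈ K}.Finite) ∧
    -- the action is non-elementary
    (∃ x y z : Z, x ∈ limSet (FreeGroup (Fin 3)) Z ∧ y ∈ limSet (FreeGroup (Fin 3)) Z ∧
      z ∈ limSet (FreeGroup (Fin 3)) Z ∧ x ≠ y ∧ y ≠ z ∧ x ≠ z) ∧
    ∃ f : Bdy 3 → Z, (∀ (g : FreeGroup (Fin 3)) (p : Bdy 3), f (g • p) = g • f p) ∧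
      -- `f` together with an orbit map is continuous at the boundary
      (∃ z0 : Z, ∀ (p : Bdy 3) (w : ℕ → FreeGroup (Fin 3)), TendsTo w p →
        Tendsto (fun k => w k • z0) atTop (𝓝 (f p))) ∧
      ∀ (a : ℝ) (ha : 1 < a),
        letI := visMetric 3 a ha
        Continuous f ∧ 0 < dimH {p : Bdy 3 | ∃ q, q ≠ p ∧ f q = f p} := by
  refine ⟨Z, inferInstance, inferInstance, inferInstance, inferInstance, triples_pd,
    ⟨z0, πZ (cst (2, true)), πZ (cst (2, false)), limSet_all _, limSet_all _, limSet_all _,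
      (ne_of_c true).symm, ne_c, (ne_of_c false).symm⟩, πZ, fun g p => (πZ_smul g p).symm,
    ⟨z0, fun p w hw => orbit_z0 hw⟩, fun a ha => ⟨continuous_πZ a ha, ?_⟩⟩
  letI := visMetric 3 a ha
  refine lt_of_lt_of_le (posW_dim a ha) (dimH_mono ?_)
  intro p hp
  refine ⟨cst (0, false), ?_, ?_⟩
  · intro h
    have h1 := hp 0
    rw [← h, cst_apply] at h1
    simp at h1
  · rw [posW_z0 hp]
    exact z0_eq (fun n => by rw [cst_apply]; simp)

end Pool.Agent.Results.MP_d1e581_al.PositiveDimension
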